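import Mathlib

namespace Pool.Agent.Results.MP_3f52e1_an.No

open Matrix Filter Topology Real

/-- the product `A_n B_n ⋯ A_1 B_1` (the sequences are indexed from `0`). -/
def P {N M : ℕ} (A : ℕ → Matrix (Fin N) (Fin M) ℝ) (B : ℕ → Matrix (Fin M) (Fin N) ℝ) :
    ℕ → Matrix (Fin N) (Fin N) ℝ
  | 0 => 1
  | n + 1 => A n * B n * P A B n

/-- the entrywise `ℓ¹` norm. -/
def nrm {N : ℕ} (X : Matrix (Fin N) (Fin N) ℝ) : ℝ := ∑ i, ∑ j, |X i j|

abbrev V := Fin 4 → ℝ

def ix (r : Bool) : Fin 4 := if r then 2 else 3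
def ph (r l : Bool) : ℝ := if l = r then 35 else -280
def dg (l : Bool) : ℝ := if l then 0 else 1
noncomputable def K : ℝ := exp 600
noncomputable def be : ℝ := 1 + exp 600
def wb (i : ℕ) : Bool := decide (Nat.log 2 i % 2 = 0)
noncomputable def th (n : ℕ) : ℝ := ∑' j, dg (wb (n + j)) / be * (1 / (2 * be)) ^ j
noncomputable def u0 : V := ![K, K * th 0, 0, 0]

lemma K_ge : 601 ≤ K := by have := add_one_le_exp (600 : ℝ); unfold K; linarith
lemma be_ge : 2 ≤ be := by have := K_ge; unfold K at this; unfold be; linarith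
lemma dg_mem (l : Bool) : 0 ≤ dg l ∧ dg l ≤ 1 := by cases l <;> simp [dg]

lemma q_mem : 0 ≤ 1 / (2 * be) ∧ 1 / (2 * be) ≤ 1 / 2 := by
  have := be_ge
  refine ⟨by positivity, one_div_le_one_div_of_le (by norm_num) (by linarith)⟩

lemma term_le (n j : ℕ) : 0 ≤ dg (wb (n + j)) / be * (1 / (2 * be)) ^ j ∧
    dg (wb (n + j)) / be * (1 / (2 * be)) ^ j ≤ 1 / 2 * (1 / 2) ^ j := by
  have h := be_ge
  have h1 := dg_mem (wb (n + j))
  have h2 := q_mem
  refine ⟨mul_nonneg (div_nonneg h1.1 (by linarith)) (pow_nonneg h2.1 _), ?_⟩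
  refine mul_le_mul ?_ (pow_le_pow_left₀ h2.1 h2.2 _) (pow_nonneg h2.1 _) (by norm_num)
  rw [div_le_iff₀ (by linarith)]; linarith

lemma th_sum (n : ℕ) : Summable fun j => dg (wb (n + j)) / be * (1 / (2 * be)) ^ j :=
  Summable.of_nonneg_of_le (fun j => (term_le n j).1) (fun j => (term_le n j).2)
    (summable_geometric_two.mul_left _)

lemma th_mem (n : ℕ) : 0 ≤ th n ∧ th n ≤ 1 := by
  refine ⟨tsum_nonneg fun j => (term_le n j).1, ?_⟩
  have := (th_sum n).tsum_le_tsum (fun j => (term_le n j).2) (summable_geometric_two.mul_left _)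
  rw [tsum_mul_left, tsum_geometric_two] at this
  unfold th; linarith

lemma th_rec (n : ℕ) : be * th n - dg (wb n) = th (n + 1) / 2 := by
  have h := be_ge
  have e : th n = dg (wb n) / be + 1 / (2 * be) * th (n + 1) := by
    unfold th
    rw [(th_sum n).tsum_eq_zero_add, ← tsum_mul_left]
    congr 1
    · simp
    · refine tsum_congr fun j => ?_
      rw [show n + (j + 1) = n + 1 + j by ring]; ring
  rw [e]; field_simp; ring

noncomputable def Bm (l : Bool) : Matrix (Fin 4) (Fin 4) ℝ :=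
  !![1 / 2, 0, 0, 0; -dg l, be, 0, 0; 0, 0, exp (ph true l), 0; 0, 0, 0, exp (ph false l)]
def Am : Option Bool → Matrix (Fin 4) (Fin 4) ℝ
  | none => 1
  | some r => single (ix r) 0 1
noncomputable def AA (a : Option Bool × Fin 4) : Matrix (Fin 4) (Fin (4 + 4)) ℝ :=
  (fromCols (Am a.1) (of fun r c => if c = a.2 then u0 r else 0)).submatrix id finSumFinEquiv.symm
noncomputable def BB : Option Bool → Matrix (Fin (4 + 4)) (Fin 4) ℝ
  | none => (fromRows 0 1).submatrix finSumFinEquiv.symm id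
  | some l => (fromRows (Bm l) 0).submatrix finSumFinEquiv.symm id

noncomputable def F (a : Option Bool × Fin 4) : Option Bool → V → V
  | none, v => v a.2 • u0
  | some l, v => match a.1 with
    | none => ![v 0 / 2, be * v 1 - dg l * v 0, exp (ph true l) * v 2, exp (ph false l) * v 3]
    | some r => Pi.single (ix r) (v 0 / 2)

lemma mul_F (a : Option Bool × Fin 4) (b : Option Bool) (v : V) :
    (AA a * BB b) *ᵥ v = F a b v := by
  obtain ⟨m, i⟩ := a
  cases b with
  | none =>
    simp only [AA, BB, F, submatrix_mul_equiv, fromCols_mul_fromRows, submatrix_id_id]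
    ext r
    simp [mulVec, dotProduct, mul_comm]
  | some l =>
    simp only [AA, BB, F, submatrix_mul_equiv, fromCols_mul_fromRows, submatrix_id_id]
    cases m with
    | none =>
      ext r
      fin_cases r <;> simp [Am, Bm, mulVec, dotProduct, Fin.sum_univ_four] <;> ring
    | some r' =>
      ext r
      rw [Matrix.mul_zero, add_zero, ← mulVec_mulVec]
      by_cases h : r = ix r'
      · subst h
        simp [Am, Bm, mulVec, dotProduct, Fin.sum_univ_four, single_apply]; ring
      · simp [Am, mulVec, dotProduct, single_apply, h, Ne.symm h]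

noncomputable def st (α : ℕ → Option Bool × Fin 4) (β : ℕ → Option Bool) (v : V) : ℕ → V
  | 0 => v
  | n + 1 => F (α n) (β n) (st α β v n)

lemma P_st (α : ℕ → Option Bool × Fin 4) (β : ℕ → Option Bool) (v : V) (n : ℕ) :
    P (fun k => AA (α k)) (fun k => BB (β k)) n *ᵥ v = st α β v n := by
  induction n with
  | zero => simp [P, st]
  | succ n ih => rw [P, st, ← mulVec_mulVec, ih, mul_F]

lemma F_smul (a : Option Bool × Fin 4) (b : Option Bool) (c : ℝ) (v : V) :
    F a b (c • v) = c • F a b v := by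
  rw [← mul_F, ← mul_F, mulVec_smul]

lemma st_congr {α α' : ℕ → Option Bool × Fin 4} {β β' : ℕ → Option Bool} (v : V) (n : ℕ)
    (h : ∀ k < n, α k = α' k ∧ β k = β' k) : st α β v n = st α' β' v n := by
  induction n with
  | zero => rfl
  | succ n ih =>
    rw [st, st, ih fun k hk => h k (by omega), (h n (by omega)).1, (h n (by omega)).2]

lemma st_shift (α : ℕ → Option Bool × Fin 4) (β : ℕ → Option Bool) (v w : V) (c : ℝ) (t : ℕ)
    (h : st α β v t = c • w) (k : ℕ) :
    st α β v (t + k) = c • st (fun i => α (t + i)) (fun i => β (t + i)) w k := by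
  induction k with
  | zero => exact h
  | succ k ih => rw [← add_assoc, st, st, ih, F_smul]

/-- along the special word and without cashing -/
lemma st_stay (α : ℕ → Option Bool × Fin 4) (w : ℕ → Bool) (n : ℕ)
    (h : ∀ k < n, (α k).1 = none ∧ w k = wb k) :
    st α (fun k => some (w k)) u0 n = ![K * (1 / 2) ^ n, K * (1 / 2) ^ n * th n, 0, 0] := by
  induction n with
  | zero => simp [st, u0]
  | succ n ih =>
    rw [st, ih fun k hk => h k (by omega)]
    simp only [F, (h n (by omega)).1, (h n (by omega)).2]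
    have := th_rec n
    ext r
    fin_cases r <;> simp
    · ring
    · linear_combination K * (2 ^ n)⁻¹ * this

lemma F_single (a : Option Bool × Fin 4) (l r : Bool) (x : ℝ) :
    F a (some l) (Pi.single (ix r) x) =
      Pi.single (ix r) ((if a.1 = none then exp (ph r l) else 0) * x) := by
  obtain ⟨m, i⟩ := a
  cases m with
  | none => ext j; cases r <;> fin_cases j <;> simp [F, ix]
  | some r' => cases r <;> simp [F, ix]

noncomputable def S (r : Bool) (w : ℕ → Bool) (m n : ℕ) : ℝ := ∑ i ∈ Finset.Ico m n, ph r (w i)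

lemma S_succ (r : Bool) (w : ℕ → Bool) {m n : ℕ} (h : m ≤ n) :
    S r w m (n + 1) = S r w m n + ph r (w n) := Finset.sum_Ico_succ_top h _

lemma S_add (r : Bool) (w : ℕ → Bool) {m n k : ℕ} (h : m ≤ n) (h' : n ≤ k) :
    S r w m k = S r w m n + S r w n k := (Finset.sum_Ico_consecutive _ h h').symm

lemma S_const (r : Bool) (w : ℕ → Bool) {m n : ℕ} (h : m ≤ n) (c : ℝ)
    (hc : ∀ i, m ≤ i → i < n → ph r (w i) = c) : S r w m n = c * (n - m) := by
  unfold S
  rw [Finset.sum_congr rfl fun i hi => hc i (Finset.mem_Ico.1 hi).1 (Finset.mem_Ico.1 hi).2]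
  simp [Nat.cast_sub h, mul_comm]

lemma S_bd (r : Bool) (w : ℕ → Bool) {m n : ℕ} (h : m ≤ n) :
    -280 * ((n : ℝ) - m) ≤ S r w m n ∧ S r w m n ≤ 35 * ((n : ℝ) - m) := by
  induction n, h using Nat.le_induction with
  | base => simp [S]
  | succ n h ih =>
    rw [S_succ r w h]; push_cast
    have : -280 ≤ ph r (w n) ∧ ph r (w n) ≤ 35 := by unfold ph; split_ifs <;> norm_num
    constructor <;> linarith [ih.1, ih.2, this.1, this.2]

lemma wb_eq {k i : ℕ} (h : 2 ^ k ≤ i) (h' : i < 2 ^ (k + 1)) : wb i = decide (k % 2 = 0) := by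
  unfold wb; rw [Nat.log_eq_of_pow_le_of_lt_pow h h']

lemma cash (w : ℕ → Bool) (r : Bool) (m n : ℕ) (hw : ∀ k < m, w k = wb k) (h : m + 1 ≤ n) :
    st (fun k => (if k = m then some r else none, 0)) (fun k => some (w k)) u0 n =
      Pi.single (ix r) (K * (1 / 2) ^ (m + 1) * exp (S r w (m + 1) n)) := by
  induction n, h using Nat.le_induction with
  | base =>
    rw [st, st_stay _ w m fun k hk => ⟨by simp [hk.ne], hw k hk⟩]
    simp [F, S, pow_succ, div_eq_mul_inv, mul_assoc]
  | succ n h ih =>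
    rw [st, ih, F_single, S_succ r w h, exp_add, if_pos (by simp; omega)]
    congr 1; ring

lemma half_ge (m : ℕ) : exp (-(m : ℝ)) ≤ (1 / 2 : ℝ) ^ m := by
  rw [show -(m : ℝ) = m * (-1) by ring, exp_nat_mul]
  refine pow_le_pow_left₀ (exp_pos _).le ?_ _
  rw [exp_neg, one_div]
  exact inv_anti₀ (by norm_num) (by have := add_one_le_exp (1 : ℝ); linarith)

lemma track (w : ℕ → Bool) (m n : ℕ) (hw : ∀ k < m, w k = wb k) (hm : w m ≠ wb m) (h : m + 1 ≤ n) :
    st (fun _ => (none, 0)) (fun k => some (w k)) u0 n 0 = K * (1 / 2) ^ n ∧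
    K * (1 / 2) ^ (m + 1) * exp (600 * ((n : ℝ) - (m + 1))) ≤
      |st (fun _ => (none, 0)) (fun k => some (w k)) u0 n 1| := by
  have hK := K_ge
  induction n, h using Nat.le_induction with
  | base =>
    rw [st, st_stay _ w m fun k hk => ⟨rfl, hw k hk⟩]
    refine ⟨by simp [F]; ring, ?_⟩
    have h1 := th_rec m
    have h2 := th_mem (m + 1)
    have e : F (none, 0) (some (w m)) ![K * (1 / 2) ^ m, K * (1 / 2) ^ m * th m, 0, 0] 1 =
        K * (1 / 2) ^ m * (th (m + 1) / 2 + (dg (wb m) - dg (w m))) := by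
      simp [F]; linear_combination K * (2 ^ m)⁻¹ * h1
    rw [e, abs_mul, abs_of_pos (by positivity)]
    have : 1 / 2 ≤ |th (m + 1) / 2 + (dg (wb m) - dg (w m))| := by
      rw [le_abs]
      revert hm
      cases wb m <;> cases w m <;> simp [dg] <;> [left; right] <;> linarith [h2.1, h2.2]
    push_cast
    rw [sub_self, mul_zero, exp_zero, mul_one, pow_succ, ← mul_assoc]
    gcongr
  | succ n h ih =>
    obtain ⟨h0, h1⟩ := ih
    rw [st]
    set v := st (fun _ => (none, 0)) (fun k => some (w k)) u0 n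
    refine ⟨by simp [F, h0]; ring, ?_⟩
    have e : F (none, 0) (some (w n)) v 1 = be * v 1 - dg (w n) * v 0 := by simp [F]
    have hs : |v 0| ≤ |v 1| := by
      rw [h0, abs_of_pos (by positivity)]
      refine le_trans ?_ h1
      have : (m : ℝ) + 1 ≤ n := by exact_mod_cast h
      have h3 : 1 ≤ exp (600 * ((n : ℝ) - (m + 1))) := one_le_exp (by linarith)
      have h4 : (1 / 2 : ℝ) ^ n ≤ (1 / 2) ^ (m + 1) :=
        pow_le_pow_of_le_one (by norm_num) (by norm_num) h
      calc K * (1 / 2) ^ n ≤ K * (1 / 2) ^ (m + 1) * 1 := by rw [mul_one]; gcongr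
        _ ≤ _ := by gcongr
    have h5 : |dg (w n) * v 0| ≤ |v 1| := by
      rw [abs_mul, abs_of_nonneg (dg_mem _).1]
      nlinarith [dg_mem (w n), abs_nonneg (v 0)]
    have h6 := abs_sub_abs_le_abs_sub (be * v 1) (dg (w n) * v 0)
    rw [abs_mul, abs_of_pos (by linarith [be_ge] : 0 < be)] at h6
    rw [e]
    push_cast
    rw [show 600 * ((n : ℝ) + 1 - (m + 1)) = 600 * ((n : ℝ) - (m + 1)) + 600 by ring, exp_add,
      ← mul_assoc]
    have h7 := mul_le_mul_of_nonneg_right h1 (exp_pos 600).le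
    unfold be at h6 ⊢
    nlinarith

lemma big {m : ℕ} {x : ℝ} (h : (m : ℝ) ≤ 600 + x) : 1 ≤ K * (1 / 2) ^ m * exp x := by
  have h1 := half_ge m
  calc (1 : ℝ) ≤ exp (600 + -(m : ℝ) + x) := one_le_exp (by linarith)
    _ = K * exp (-(m : ℝ)) * exp x := by rw [exp_add, exp_add, K]
    _ ≤ _ := by have := K_ge; gcongr

lemma low (w : ℕ → Bool) (n : ℕ) :
    ∃ α i, 1 ≤ |st α (fun k => some (w k)) u0 n i| := by
  classical
  have hex : ∃ m, m = n ∨ w m ≠ wb m := ⟨n, Or.inl rfl⟩
  set m := Nat.find hex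
  have hmn : m ≤ n := Nat.find_min' hex (Or.inl rfl)
  have hw : ∀ k < m, w k = wb k := fun k hk => by
    have := Nat.find_min hex hk; push Not at this; exact this.2
  have htr : m < n → (m : ℝ) + 1 ≤ 600 * ((n : ℝ) - m) → ∃ α i,
      1 ≤ |st α (fun k => some (w k)) u0 n i| := fun h h' =>
    ⟨_, 1, le_trans (big (by push_cast; linarith))
      (track w m n hw ((Nat.find_spec hex).resolve_left h.ne) h).2⟩
  have hmn' : (m : ℝ) ≤ n := by exact_mod_cast hmn
  by_cases h4 : m < 4
  · have h4' : (m : ℝ) < 4 := by exact_mod_cast h4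
    rcases hmn.eq_or_lt with h | h
    · refine ⟨fun _ => (none, 0), 0, ?_⟩
      rw [st_stay _ w n fun k hk => ⟨rfl, hw k (h ▸ hk)⟩]
      have := big (m := n) (x := 0) (by rw [← h]; linarith)
      simp only [exp_zero, mul_one] at this
      exact le_trans this (le_abs_self _)
    · have : (m : ℝ) + 1 ≤ n := by exact_mod_cast h
      exact htr h (by linarith)
  obtain ⟨k, hk⟩ : ∃ k, Nat.log 2 m = k + 1 := ⟨Nat.log 2 m - 1, by
    have := Nat.le_log_of_pow_le (b := 2) (x := 1) (y := m) (by norm_num) (by omega); omega⟩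
  have h1 : 2 ^ (k + 1) ≤ m := hk ▸ Nat.pow_log_le_self 2 (by omega)
  have h2 : m < 2 ^ (k + 1 + 1) := hk ▸ Nat.lt_pow_succ_log_self (by norm_num) m
  have hL : 1 ≤ 2 ^ k := Nat.one_le_two_pow
  have e1 : 2 ^ (k + 1) = 2 * 2 ^ k := by ring
  have e2 : 2 ^ (k + 1 + 1) = 4 * 2 ^ k := by ring
  have hA : ∀ i, 2 ^ k ≤ i → i < 2 * 2 ^ k → w i = decide (k % 2 = 0) := fun i a b => by
    rw [hw i (by omega), wb_eq a (by omega)]
  have hB : ∀ i, 2 * 2 ^ k ≤ i → i < m → w i = !decide (k % 2 = 0) := fun i a b => by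
    rw [hw i b, wb_eq (k := k + 1) (by omega) (by omega)]
    rcases Nat.mod_two_eq_zero_or_one k with h | h <;> simp [h, Nat.add_mod]
  rw [e1] at h1; rw [e2] at h2
  generalize 2 ^ k = L at *
  generalize decide (k % 2 = 0) = r at *
  have h1' : 2 * (L : ℝ) ≤ m := by exact_mod_cast h1
  have h2' : (m : ℝ) + 1 ≤ 4 * L := by exact_mod_cast h2
  by_cases ht : (L : ℝ) < 140 * ((n : ℝ) - m)
  · refine htr ?_ (by linarith)
    have : (1 : ℝ) ≤ L := by exact_mod_cast hL
    have : (m : ℝ) < n := by linarith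
    exact_mod_cast this
  have hc : ∀ (r' : Bool) (p : ℕ), 1 ≤ p → p ≤ m → (p : ℝ) + 2 * L ≤ S r' w p m → ∃ α i,
      1 ≤ |st α (fun k => some (w k)) u0 n i| := fun r' p hp hpm hS => by
    obtain ⟨p, rfl⟩ : ∃ q, p = q + 1 := ⟨p - 1, by omega⟩
    refine ⟨fun k => (if k = p then some r' else none, 0), ix r', ?_⟩
    rw [cash w r' p n (fun k hk => hw k (by omega)) (by omega), Pi.single_eq_same]
    refine le_trans (big ?_) (le_abs_self _)
    rw [S_add r' w hpm hmn]
    linarith [(S_bd r' w hmn).1]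
  by_cases hj : 4 * (L : ℝ) ≤ 35 * ((m : ℝ) - 2 * L)
  · refine hc (!r) (2 * L) (by omega) h1 ?_
    rw [S_const (!r) w h1 35 fun i a b => by simp [ph, hB i a b]]
    push_cast; linarith
  · refine hc r L hL (by omega) ?_
    rw [S_add r w (by omega : L ≤ 2 * L) h1, S_const r w h1 (-280) fun i a b => by
      simp [ph, hB i a b], S_const r w (by omega : L ≤ 2 * L) 35 fun i a b => by
      simp [ph, hA i a b]]
    push_cast; linarith

lemma glob (n : ℕ) : ∀ β : ℕ → Option Bool, ∃ α i, 1 ≤ |st α β u0 n i| := by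
  induction n using Nat.strong_induction_on with
  | _ n ih =>
  intro β
  by_cases h : ∃ t < n, β t = none
  · obtain ⟨t, ht, hb⟩ := h
    obtain ⟨k, rfl⟩ : ∃ k, n = t + 1 + k := ⟨n - (t + 1), by omega⟩
    obtain ⟨α₁, i, h₁⟩ := ih t ht β
    obtain ⟨α₂, j, h₂⟩ := ih k (by omega) fun i => β (t + 1 + i)
    let α : ℕ → Option Bool × Fin 4 := fun s =>
      if s < t then α₁ s else if s = t then (none, i) else α₂ (s - (t + 1))
    have e : st α β u0 (t + 1) = st α₁ β u0 t i • u0 := by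
      rw [st, st_congr u0 t (α' := α₁) (β' := β) fun s hs => ⟨by simp [α, hs], rfl⟩, hb]
      simp [F, α]
    refine ⟨α, j, ?_⟩
    rw [st_shift α β u0 u0 _ _ e, st_congr u0 k (α' := α₂) (β' := fun i => β (t + 1 + i))
      fun s hs => ⟨by simp only [α]; rw [if_neg (by omega), if_neg (by omega)]; simp, rfl⟩,
      Pi.smul_apply, smul_eq_mul, abs_mul]
    nlinarith
  · push Not at h
    obtain ⟨α, i, hi⟩ := low (fun k => (β k).getD true) n
    refine ⟨α, i, ?_⟩
    rwa [st_congr u0 n (α' := α) (β' := fun k => some ((β k).getD true)) fun s hs =>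
      ⟨rfl, by have := h s hs; cases hb : β s <;> simp_all⟩]

lemma S_le (r : Bool) (n : ℕ) (h : 4 ≤ n) : S r wb 0 n ≤ -n := by
  obtain ⟨k, hk⟩ : ∃ k, Nat.log 2 n = k + 2 := ⟨Nat.log 2 n - 2, by
    have := Nat.le_log_of_pow_le (b := 2) (x := 2) (y := n) (by norm_num) (by omega); omega⟩
  have h1 : 2 ^ (k + 2) ≤ n := hk ▸ Nat.pow_log_le_self 2 (by omega)
  have h2 : n < 2 ^ (k + 2 + 1) := hk ▸ Nat.lt_pow_succ_log_self (by norm_num) n
  have key : ∀ j, k ≤ j → j ≤ k + 1 → decide (j % 2 = 0) ≠ r → S r wb 0 n ≤ -n := by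
    intro j a b c
    have p1 : 2 ^ k ≤ 2 ^ j := Nat.pow_le_pow_right (by norm_num) a
    have p2 : 2 ^ (j + 1) ≤ 2 ^ (k + 2) := Nat.pow_le_pow_right (by norm_num) (by omega)
    have p3 : 2 ^ j ≤ 2 ^ (j + 1) := Nat.pow_le_pow_right (by norm_num) (by omega)
    have p4 : 2 ^ (j + 1) ≤ n := p2.trans h1
    rw [S_add r wb (Nat.zero_le _) (p3.trans p4), S_add r wb p3 p4,
      S_const r wb p3 (-280) fun i x y => by simp only [ph]; rw [wb_eq x y, if_neg c]]
    have q1 := (S_bd r wb (Nat.zero_le (2 ^ j))).2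
    have q2 := (S_bd r wb p4).2
    have q3 : n < 8 * 2 ^ j := by rw [show 2 ^ (k + 2 + 1) = 8 * 2 ^ k by ring] at h2; omega
    have q4 : (n : ℝ) < 8 * 2 ^ j := by exact_mod_cast q3
    have e : (2 : ℝ) ^ (j + 1) = 2 * 2 ^ j := by ring
    have q5 : (0 : ℝ) < 2 ^ j := by positivity
    push_cast at q1 q2 ⊢
    linarith
  by_cases hr : decide (k % 2 = 0) = r
  · refine key (k + 1) (by omega) le_rfl ?_
    subst hr
    rcases Nat.mod_two_eq_zero_or_one k with h | h <;> simp [h, Nat.add_mod]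
  · exact key k le_rfl (by omega) hr

lemma conv (α : ℕ → Option Bool × Fin 4) :
    Tendsto (st α (fun k => some (wb k)) u0) atTop (𝓝 0) := by
  classical
  have hg : Tendsto (fun n : ℕ => K * (1 / 2 : ℝ) ^ n) atTop (𝓝 0) := by
    simpa using (tendsto_pow_atTop_nhds_zero_of_lt_one (r := (1 / 2 : ℝ)) (by norm_num)
      (by norm_num)).const_mul K
  by_cases h : ∃ m, (α m).1 ≠ none
  · set m := Nat.find h
    obtain ⟨r, hr⟩ := Option.ne_none_iff_exists'.1 (Nat.find_spec h)
    have key : ∀ n, m + 1 ≤ n → ∃ x, st α (fun k => some (wb k)) u0 n = Pi.single (ix r) x ∧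
        |x| ≤ K * exp (S r wb (m + 1) n) := by
      intro n hn
      induction n, hn using Nat.le_induction with
      | base =>
        rw [st, st_stay _ wb m fun k hk => ⟨by simpa using Nat.find_min h hk, rfl⟩]
        refine ⟨K * (1 / 2) ^ m / 2, by simp [F, m, hr], ?_⟩
        have := K_ge
        have h1 : (1 / 2 : ℝ) ^ m ≤ 1 := pow_le_one₀ (by norm_num) (by norm_num)
        rw [abs_of_pos (by positivity)]
        simp only [S, Finset.Ico_self, Finset.sum_empty, exp_zero]
        nlinarith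
      | succ n hn ih =>
        obtain ⟨x, e, hx⟩ := ih
        refine ⟨_, by rw [st, e, F_single], ?_⟩
        rw [S_succ r wb hn, exp_add, abs_mul]
        split_ifs
        · rw [abs_of_pos (exp_pos _), mul_comm, ← mul_assoc]; gcongr
        · have := K_ge
          simp only [abs_zero, zero_mul]; positivity
    have h0 : Tendsto (fun n : ℕ => K * exp (-S r wb 0 (m + 1)) * exp (-(n : ℝ))) atTop (𝓝 0) := by
      simpa using (tendsto_exp_neg_atTop_nhds_zero.comp tendsto_natCast_atTop_atTop).const_mul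
        (K * exp (-S r wb 0 (m + 1)))
    refine squeeze_zero_norm' ?_ h0
    filter_upwards [eventually_ge_atTop (m + 1), eventually_ge_atTop 4] with n h1 h2
    obtain ⟨x, e, hx⟩ := key n h1
    rw [e, Pi.norm_single, norm_eq_abs, mul_assoc, ← exp_add]
    refine hx.trans ?_
    have := K_ge
    have h3 := S_le r n h2
    rw [S_add r wb (Nat.zero_le _) h1] at h3
    gcongr; linarith
  · push Not at h
    refine squeeze_zero_norm (fun n => ?_) hg
    have := K_ge
    rw [st_stay _ wb n fun k _ => ⟨h k, rfl⟩, pi_norm_le_iff_of_nonneg (by positivity)]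
    intro i
    have h2 := th_mem n
    have h3 : 0 < K * (1 / 2 : ℝ) ^ n := by positivity
    generalize K * (1 / 2 : ℝ) ^ n = c at h3
    fin_cases i <;> simp [abs_of_pos h3, h3.le, abs_of_nonneg h2.1]
    nlinarith

theorem result : ∃ (N M : ℕ) (𝒜 : Set (Matrix (Fin N) (Fin M) ℝ))
    (ℬ : Set (Matrix (Fin M) (Fin N) ℝ)),
    1 ≤ N ∧ 1 ≤ M ∧ 𝒜.Finite ∧ ℬ.Finite ∧ 𝒜.Nonempty ∧
    (∃ B : ℕ → Matrix (Fin M) (Fin N) ℝ, (∀ n, B n ∈ ℬ) ∧
      ∀ A : ℕ → Matrix (Fin N) (Fin M) ℝ, (∀ n, A n ∈ 𝒜) →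
        Tendsto (fun n => nrm (P A B n)) atTop (𝓝 0)) ∧
    ∀ B : ℕ → Matrix (Fin M) (Fin N) ℝ, (∀ n, B n ∈ ℬ) → ∀ C l : ℝ, 0 < C → 0 < l → l < 1 →
      ∃ A : ℕ → Matrix (Fin N) (Fin M) ℝ, (∀ n, A n ∈ 𝒜) ∧
        ∃ n, 1 ≤ n ∧ C * l ^ n < nrm (P A B n) := by
  refine ⟨4, 4 + 4, Set.range AA, Set.range BB, by norm_num, by norm_num, Set.finite_range _,
    Set.finite_range _, Set.range_nonempty _, ?_, ?_⟩
  · let β : ℕ → Option Bool := fun k => if k = 0 then none else some (wb (k - 1))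
    refine ⟨fun k => BB (β k), fun n => ⟨_, rfl⟩, fun A hA => ?_⟩
    choose α hα using hA
    obtain rfl : A = fun k => AA (α k) := funext fun k => (hα k).symm
    have : ∀ i j, Tendsto (fun n => |P (fun k => AA (α k)) (fun k => BB (β k)) n i j|) atTop
        (𝓝 0) := by
      intro i j
      have e : st α β (Pi.single j 1) 1 = (Pi.single j (1 : ℝ) : V) (α 0).2 • u0 := by
        simp [st, β, F]
      have h1 := ((tendsto_pi_nhds.1 (conv fun k => α (1 + k)) i).const_mul
        ((Pi.single j (1 : ℝ) : V) (α 0).2)).abs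
      simp only [Pi.zero_apply, mul_zero, abs_zero] at h1
      rw [← tendsto_add_atTop_iff_nat 1]
      refine h1.congr fun n => ?_
      have h2 := congrFun (P_st α β (Pi.single j 1) (n + 1)) i
      rw [mulVec_single_one, col_apply, add_comm n 1, st_shift α β _ u0 _ _ e,
        show (fun i => β (1 + i)) = fun k => some (wb k) from funext fun k => by simp [β]] at h2
      rw [add_comm n 1, h2]; rfl
    have h := tendsto_finset_sum Finset.univ fun i _ =>
      tendsto_finset_sum Finset.univ fun j _ => this i j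
    simpa only [nrm, Finset.sum_const_zero] using h
  · intro B hB C l hC hl hl1
    choose β hβ using hB
    obtain rfl : B = fun k => BB (β k) := funext fun k => (hβ k).symm
    have hK := K_ge
    have h0 : Tendsto (fun n : ℕ => C * l ^ n) atTop (𝓝 0) := by
      simpa using (tendsto_pow_atTop_nhds_zero_of_lt_one hl.le hl1).const_mul C
    obtain ⟨n, hn, h1⟩ := ((h0.eventually (gt_mem_nhds (show 0 < 1 / K by positivity))).and
      (eventually_ge_atTop 1)).exists
    obtain ⟨α, i, hi⟩ := glob n β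
    refine ⟨fun k => AA (α k), fun k => ⟨_, rfl⟩, n, h1, hn.trans_le ?_⟩
    rw [← P_st] at hi
    set X := P (fun k => AA (α k)) (fun k => BB (β k)) n
    have hu : ∀ j, |u0 j| ≤ K := fun j => by
      have h2 := th_mem 0
      have h3 : 0 < K := by linarith
      fin_cases j <;> simp [u0, abs_of_pos h3, h3.le, abs_of_nonneg h2.1]
      nlinarith
    have h2 : |(X *ᵥ u0) i| ≤ (∑ j, |X i j|) * K := by
      rw [Finset.sum_mul]
      show |∑ j, X i j * u0 j| ≤ _
      refine (Finset.abs_sum_le_sum_abs (fun j => X i j * u0 j) _).trans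
        (Finset.sum_le_sum fun j _ => ?_)
      rw [abs_mul]; gcongr; exact hu j
    have h3 : ∑ j, |X i j| ≤ nrm X :=
      Finset.single_le_sum (f := fun i => ∑ j, |X i j|)
        (fun i _ => Finset.sum_nonneg fun j _ => abs_nonneg _) (Finset.mem_univ i)
    rw [div_le_iff₀ (by linarith)]
    nlinarith

end Pool.Agent.Results.MP_3f52e1_an.No
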